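import Mathlib

/-!
Project PS (MP_e58d4b_co): f_6(n,21) lies strictly between sqrt(log n) and log n.
Definitions only.
-/

namespace W926.PS

open Finset

/-! ### final definitions -/

/-- The ordering of `X` induced by the permutation `ρ` (viewed as the linear order
`x <_ρ y ↔ ρ x < ρ y`), as a relation on `X`. -/
def inducedOrder {n : ℕ} (ρ : Equiv.Perm (Fin n)) (X : Finset (Fin n)) : X → X → Prop :=
  fun x y => ρ x < ρ y

/-- The family `P` `t`-shatters `X`: its members induce at least `t` distinct orderings of `X`. -/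
def Shatters {n : ℕ} (t : ℕ) (P : Finset (Equiv.Perm (Fin n))) (X : Finset (Fin n)) : Prop :=
  t ≤ ((fun ρ : Equiv.Perm (Fin n) => inducedOrder ρ X) '' (P : Set (Equiv.Perm (Fin n)))).ncard

/-- `f k n t` is the minimum size of a family of permutations of `[n]` that `t`-shatters every
`k`-element subset. -/
noncomputable def f (k n t : ℕ) : ℕ :=
  sInf {s | ∃ P : Finset (Equiv.Perm (Fin n)), P.card = s ∧
    ∀ X : Finset (Fin n), X.card = k → Shatters t P X}

/-! ### Part L (lower bound) -/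

/-- index of the level `t` cell containing position `p` (there are `Q ^ R` positions, a level `t`
cell consists of `Q ^ (R - t)` consecutive positions) -/
def cell (Q R t p : ℕ) : ℕ := p / Q ^ (R - t)

/-- the condition which stops the choice of the level -/
def Cond {α : Type} [Fintype α] (Q R q T : ℕ) (pos lev : ℕ → α → ℕ)
    (l : ℕ) (x : α) (t : ℕ) : Prop :=
  ∀ E : Finset ℕ, (∀ i ∈ E, i < l) → E.card ≤ q → (∀ i ∈ E, lev i x < T) →
    (univ.filter (fun y : α =>
      (∀ i ∈ E, cell Q R (lev i x) (pos i y) = cell Q R (lev i x) (pos i x)) ∧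
        cell Q R t (pos l y) = cell Q R t (pos l x))).card * Q ^ (E.card + 1) ≤ Q ^ R

/-- `lev l x` is the least `t ≤ T` with `t = T` or `Cond .. l x t` -/
structure LevSpec {α : Type} [Fintype α] (Q R q T : ℕ) (pos lev : ℕ → α → ℕ) : Prop where
  le : ∀ l x, lev l x ≤ T
  good : ∀ l x, lev l x < T → Cond Q R q T pos lev l x (lev l x)
  bad : ∀ l x t, t < lev l x → ¬ Cond Q R q T pos lev l x t

/-- `{a,b}` and `{c,d}` are separated by the key `k` -/
def Sep {β : Type} (k : β → ℕ) (a b c d : β) : Prop :=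
  (k a < k c ∧ k a < k d ∧ k b < k c ∧ k b < k d) ∨
  (k c < k a ∧ k d < k a ∧ k c < k b ∧ k d < k b)

/-- the three pairs `(a i, b i)` are arranged in the same way for `(0,1), (0,2), (1,2)` -/
def Hom {β : Type} (k : β → ℕ) (a b : Fin 3 → β) : Prop :=
  ((k (a 0) < k (a 1) ↔ k (a 0) < k (a 2)) ∧ (k (a 0) < k (a 1) ↔ k (a 1) < k (a 2))) ∧
  ((k (a 0) < k (b 1) ↔ k (a 0) < k (b 2)) ∧ (k (a 0) < k (b 1) ↔ k (a 1) < k (b 2))) ∧
  ((k (b 0) < k (a 1) ↔ k (b 0) < k (a 2)) ∧ (k (b 0) < k (a 1) ↔ k (b 1) < k (a 2))) ∧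
  ((k (b 0) < k (b 1) ↔ k (b 0) < k (b 2)) ∧ (k (b 0) < k (b 1) ↔ k (b 1) < k (b 2)))

/-- all pairs have the same type -/
def SameType {β ι : Type} (k : β → ℕ) (a b : ι → β) : Prop :=
  (∀ i, k (a i) < k (b i)) ∨ (∀ i, k (b i) < k (a i))

/-! ### Part U (upper bound) -/

/-- the points: `r` blocks of `a` bits -/
abbrev Om (r a : ℕ) := Fin r → Fin a → Bool

/-- positions -/
abbrev Pos (r a : ℕ) := Fin r × Fin a

/-- natural rank of a position -/
def nrk {r a : ℕ} (p : Pos r a) : ℕ := p.1 * a + p.2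

/-- `p'` is read before `p`: first by the stage `st`, then in the natural order -/
def Before {r a : ℕ} (st : Pos r a → ℕ) (p' p : Pos r a) : Prop :=
  st p' < st p ∨ (st p' = st p ∧ nrk p' < nrk p)

/-- `p` is the first difference of `x, y` when the positions are read in the order of `st` -/
def FD {r a : ℕ} (st : Pos r a → ℕ) (x y : Om r a) (p : Pos r a) : Prop :=
  (∀ p', Before st p' p → x p'.1 p'.2 = y p'.1 p'.2) ∧ x p.1 p.2 ≠ y p.1 p.2

/-- the order with reading order `st`, in which at position `p` the value `φ p` comes first -/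
def PosKey {r a : ℕ} (st : Pos r a → ℕ) (φ : Pos r a → Bool) (key : Om r a → ℕ) : Prop :=
  ∀ x y p, FD st x y p → (key x < key y ↔ x p.1 p.2 = φ p)

/-- the constant stage: natural reading order -/
def st0 {r a : ℕ} : Pos r a → ℕ := fun _ => 0

/-- label of `x` at the position `p`: the position and the bits of the block before it -/
abbrev Lab (r a : ℕ) := Pos r a × (Fin a → Bool)

def lab {r a : ℕ} (x : Om r a) (p : Pos r a) : Lab r a :=
  (p, fun e => if e < p.2 then x p.1 e else false)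

/-- natural reading order, at a node with label `s` the value `φ s` comes first -/
def LabKey {r a : ℕ} (φ : Lab r a → Bool) (key : Om r a → ℕ) : Prop :=
  ∀ x y p, FD st0 x y p → (key x < key y ↔ x p.1 p.2 = φ (lab x p))

/-- block by block, blocks with smaller weight come first -/
def WtKey {r a : ℕ} (W : Fin r × (Fin a → Bool) → Fin 3) (key : Om r a → ℕ) : Prop :=
  ∀ x y j, (∀ i, i < j → x i = y i) → W (j, x j) < W (j, y j) → key x < key y

/-- block `j` first -/
def st1 {r a : ℕ} (j : Fin r) : Pos r a → ℕ := fun p => if p.1 = j then 0 else 1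

/-- block `i`, then block `j`, then the rest -/
def st2 {r a : ℕ} (i j : Fin r) : Pos r a → ℕ :=
  fun p => if p.1 = i then 0 else if p.1 = j then 1 else 2

/-- the bits before `c` of block `j`, then the rest -/
def stA {r a : ℕ} (j : Fin r) (c : ℕ) : Pos r a → ℕ :=
  fun p => if p.1 = j ∧ (p.2 : ℕ) < c then 0 else 1

/-- the bits before `c` of block `i`, then block `j`, then the rest -/
def stB {r a : ℕ} (i j : Fin r) (c : ℕ) : Pos r a → ℕ :=
  fun p => if p.1 = i ∧ (p.2 : ℕ) < c then 0 else if p.1 = j then 1 else 2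

/-- block `j` first, then the others; inside each block the digits (`κ` consecutive bits) in their
order, in each digit the bit with offset `o` first -/
def stO {r a : ℕ} (κ : ℕ) (j : Fin r) (o : ℕ) : Pos r a → ℕ :=
  fun p => (if p.1 = j then 0 else (p.1 : ℕ) + 1) * (2 * a + 2) + 2 * ((p.2 : ℕ) / κ) +
    (if (p.2 : ℕ) % κ = o then 0 else 1)

/-- for all prescribed values on at most three positions there is a key in `F` -/
def Uni {r a : ℕ} (F : Finset (Om r a → ℕ)) (st : Pos r a → ℕ) : Prop :=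
  ∀ S : Finset (Pos r a), S.card ≤ 3 → ∀ φ : Pos r a → Bool, ∃ key ∈ F, ∃ φ' : Pos r a → Bool,
    (∀ s ∈ S, φ' s = φ s) ∧ PosKey st φ' key

/-- the family of keys is rich -/
structure Rich {r a : ℕ} (κ : ℕ) (F : Finset (Om r a → ℕ)) : Prop where
  inj : ∀ key ∈ F, Function.Injective key
  lab : ∀ S : Finset (Lab r a), S.card ≤ 5 → ∀ φ : Lab r a → Bool, ∃ key ∈ F,
    ∃ φ' : Lab r a → Bool, (∀ s ∈ S, φ' s = φ s) ∧ LabKey φ' key
  wt : ∀ S : Finset (Fin r × (Fin a → Bool)), S.card ≤ 9 → ∀ W : Fin r × (Fin a → Bool) → Fin 3,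
    ∃ key ∈ F, ∃ W' : Fin r × (Fin a → Bool) → Fin 3, (∀ s ∈ S, W' s = W s) ∧ WtKey W' key
  first1 : ∀ j, Uni F (st1 j)
  first2 : ∀ i j, Uni F (st2 i j)
  off : ∀ j o, o < κ → Uni F (stO κ j o)
  cutA : ∀ j k, k ≤ a / κ → ∃ key ∈ F, ∃ φ, PosKey (stA j (k * κ)) φ key
  cutB : ∀ i j k, k ≤ a / κ → ∃ key ∈ F, ∃ φ, PosKey (stB i j (k * κ)) φ key

/-- the pattern induced by a key on six points -/
def ipat {β : Type} (x : Fin 6 → β) (key : β → ℕ) : Fin 6 → Fin 6 → Bool :=
  fun i k => decide (key (x i) < key (x k))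

/-- the number of patterns on six points -/
def np {β : Type} (F : Finset (β → ℕ)) (x : Fin 6 → β) : ℕ :=
  (F.image (ipat x)).card

open Classical in
/-- the number of patterns on six points induced by the keys in `F` with property `A` -/
noncomputable def nq {β : Type} (F : Finset (β → ℕ)) (A : (β → ℕ) → Prop) (x : Fin 6 → β) : ℕ :=
  ((F.filter A).image (ipat x)).card

/-- collision at block `j`, bit `d`: two nodes `{x|y}`, `{z|v}` of the natural trie with the same
label -/
structure Coll {r a : ℕ} (x y z v : Om r a) (j : Fin r) (d : Fin a) : Prop where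
  xy : ∀ i, i < j → x i = y i
  zv : ∀ i, i < j → z i = v i
  ne : ∃ i, i < j ∧ x i ≠ z i
  pre : ∀ e, e < d → x j e = y j e ∧ x j e = z j e ∧ x j e = v j e
  bx : x j d = false
  bz : z j d = false
  byy : y j d = true
  bv : v j d = true

/-- block type on `(x,y;z,v)`: `{x,y}` and `{z,v}` are separated -/
def Blk {β : Type} (key : β → ℕ) (x y z v : β) : Prop :=
  (key x < key z ↔ key x < key v) ∧ (key x < key z ↔ key y < key z) ∧
    (key x < key z ↔ key y < key v)

/-- crossing type on `(x,y;z,v)`: `{x,z}` and `{y,v}` are separated -/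
def Crs {β : Type} (key : β → ℕ) (x y z v : β) : Prop :=
  (key x < key y ↔ key x < key v) ∧ (key x < key y ↔ key z < key y) ∧
    (key x < key y ↔ key z < key v)

/-- six points sorted in the natural order with the positions of the consecutive first
differences -/
def Srt {r a : ℕ} (y : Fin 6 → Om r a) (p : Fin 5 → Pos r a) : Prop :=
  ∀ i : Fin 5, FD st0 (y i.castSucc) (y i.succ) (p i) ∧
    y i.castSucc (p i).1 (p i).2 = false ∧ y i.succ (p i).1 (p i).2 = true

/-- special case I: `X 0, X 1, X 2` agree before block `j`, so do `Z 0, Z 1, Z 2`;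
the two groups differ first in block `i < j`; in block `j` the points `X 2, Z 2` split off at bit
`d` and `X 0, Z 0 | X 1, Z 1` at bit `e > d` -/
structure CaseI {r a : ℕ} (X Z : Fin 3 → Om r a) (i j : Fin r) (d e : Fin a) : Prop where
  ij : i < j
  de : d < e
  xx : ∀ b, b < j → ∀ g, X g b = X 0 b
  zz : ∀ b, b < j → ∀ g, Z g b = Z 0 b
  agree : ∀ b, b < i → X 0 b = Z 0 b
  differ : X 0 i ≠ Z 0 i
  pre : ∀ c, c < d → ∀ g, X g j c = X 0 j c ∧ Z g j c = X 0 j c
  atd : X 1 j d = X 0 j d ∧ Z 0 j d = X 0 j d ∧ Z 1 j d = X 0 j d ∧ X 2 j d ≠ X 0 j d ∧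
    Z 2 j d ≠ X 0 j d
  mid : ∀ c, d < c → c < e → X 1 j c = X 0 j c ∧ Z 0 j c = X 0 j c ∧ Z 1 j c = X 0 j c
  ate : X 0 j e = false ∧ Z 0 j e = false ∧ X 1 j e = true ∧ Z 1 j e = true

/-- special case II: three pairs `(X g, Y g)`, each agreeing before block `j`, with the same bits
of block `j` before `e`, and bit `e` false for `X g` and true for `Y g`; the pairs differ first in
block `i < j`: pair 2 splits off at bit `c`, pairs 0 and 1 at bit `d > c` -/
structure CaseII {r a : ℕ} (X Y : Fin 3 → Om r a) (i j : Fin r) (c d e : Fin a) : Prop where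
  ij : i < j
  cd : c < d
  xy : ∀ b, b < j → ∀ g, X g b = Y g b
  agree : ∀ b, b < i → ∀ g, X g b = X 0 b
  prei : ∀ c', c' < c → ∀ g, X g i c' = X 0 i c'
  atc : X 1 i c = X 0 i c ∧ X 2 i c ≠ X 0 i c
  mid : ∀ c', c < c' → c' < d → X 1 i c' = X 0 i c'
  atd : X 1 i d ≠ X 0 i d
  prej : ∀ c', c' < e → ∀ g, X g j c' = X 0 j c' ∧ Y g j c' = X 0 j c'
  ate : ∀ g, X g j e = false ∧ Y g j e = true

/-- the property of keys in special case I: the twelve natural patterns -/
def AI {β : Type} (X Z : Fin 3 → β) (key : β → ℕ) : Prop :=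
  Blk key (X 0) (X 1) (Z 0) (Z 1) ∧ Blk key (X 0) (X 2) (Z 0) (Z 2) ∧
    ∀ g h : Fin 3, (key (X g) < key (X h) ↔ key (Z g) < key (Z h))

/-- the property of keys in special case I: the eight crossing patterns -/
def BI {β : Type} (X Z : Fin 3 → β) (key : β → ℕ) : Prop :=
  Crs key (X 0) (X 1) (Z 0) (Z 1) ∧ (key (X 0) < key (X 2) ↔ key (X 1) < key (X 2))

/-- the property of keys in special case II: the twelve natural patterns -/
def AII {β : Type} (X Y : Fin 3 → β) (key : β → ℕ) : Prop :=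
  (∀ g h : Fin 3, g ≠ h → Blk key (X g) (Y g) (X h) (Y h)) ∧
    ∀ g : Fin 3, (key (X g) < key (Y g) ↔ key (X 0) < key (Y 0))

/-- the product situation in special case II -/
def ProdII {r a : ℕ} (X Y : Fin 3 → Om r a) (j : Fin r) : Prop :=
  ∀ g, X g j = X 0 j ∧ Y g j = Y 0 j

/-- the property of keys in special case II: the eight crossing patterns -/
def BII {r a : ℕ} (X Y : Fin 3 → Om r a) (j : Fin r) (key : Om r a → ℕ) : Prop :=
  Crs key (X 0) (Y 0) (X 1) (Y 1) ∧ Crs key (X 0) (Y 0) (X 2) (Y 2) ∧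
    (ProdII X Y j → (key (X 0) < key (X 2) ↔ key (X 1) < key (X 2)))

/-- six points from two triples -/
def six {β : Type} (X Z : Fin 3 → β) : Fin 6 → β :=
  ![X 0, X 1, X 2, Z 0, Z 1, Z 2]

end W926.PS
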