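import Mathlib
import Pool.Agent.W926.PS.Defs

/-!
Project PS: the statements, as Props.
-/

namespace W926.PS

open Finset

/-! ### part L -/

/-- levels exist -/
def S_LEV : Prop := ∀ (α : Type) [Fintype α] (Q R q T : ℕ) (pos : ℕ → α → ℕ),
  ∃ lev : ℕ → α → ℕ, LevSpec Q R q T pos lev

/-- the intersection of few small cells is small -/
def S_B : Prop := ∀ (α : Type) [Fintype α] (Q R q T : ℕ) (pos lev : ℕ → α → ℕ),
  LevSpec Q R q T pos lev → Fintype.card α ≤ Q ^ R →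
  ∀ (x : α) (E : Finset ℕ), E.card ≤ q + 1 → (∀ i ∈ E, lev i x < T) →
    (univ.filter (fun y : α => ∀ i ∈ E,
      cell Q R (lev i x) (pos i y) = cell Q R (lev i x) (pos i x))).card * Q ^ E.card ≤ Q ^ R

/-- there are few signatures -/
def S_SIG : Prop := ∀ (α : Type) [Fintype α] [DecidableEq α] (Q R q T m : ℕ)
  (pos lev : ℕ → α → ℕ), 0 < Q → T ≤ R → Fintype.card α ≤ Q ^ R → (∀ l x, pos l x < Q ^ R) →
  LevSpec Q R q T pos lev →
  (univ.image (fun (x : α) (l : Fin m) => (lev l x, cell Q R (lev l x) (pos l x)))).card ≤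
    (1 + T * (m + 1) ^ q * Q ^ 2) ^ m

/-- a large class of points in blocks whose pairs have the same type -/
def S_PAIR : Prop := ∀ (α : Type) [Fintype α] [DecidableEq α] (T m : ℕ) (lev cl pos : ℕ → α → ℕ),
  (∀ l x, lev l x ≤ T) → (∀ l, Function.Injective (pos l)) →
  2 * (univ.image (fun (x : α) (l : Fin m) => (lev l x, cl l x))).card ≤ Fintype.card α →
  ∃ (K : Finset α) (u v : α → α) (τ : Fin m → Bool) (t : Fin m → ℕ),
    Fintype.card α ≤ 2 * (2 * (T + 1)) ^ m * K.card ∧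
    ∀ x ∈ K, u x ≠ v x ∧ ∀ l : Fin m, lev l x = t l ∧ lev l (u x) = t l ∧ lev l (v x) = t l ∧
      cl l (u x) = cl l x ∧ cl l (v x) = cl l x ∧ (pos l (u x) < pos l (v x) ↔ τ l = true)

/-- regularisation and greedy choice -/
def S_REG : Prop := ∀ (α : Type) [Fintype α] [DecidableEq α] (m q N Q n W : ℕ) (K : Finset α)
  (cl : Fin m → α → ℕ), 0 < n → n ≤ W * K.card →
  (∀ x ∈ K, ∀ E : Finset (Fin m), E.card = q + 1 →
    (K.filter (fun y => ∀ l ∈ E, cl l y = cl l x)).card * Q ^ (q + 1) ≤ n) →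
  W * (m * N) ^ (q + 1) < Q ^ (q + 1) →
  ∃ (E : Finset (Fin m)) (g : Fin N → α), E.card ≤ q ∧ (∀ i, g i ∈ K) ∧
    ∀ i k, i ≠ k → ∀ l, l ∉ E → cl l (g i) ≠ cl l (g k)

/-- ranks of an injective key -/
def S_RANK : Prop := ∀ (n : ℕ) (key : Fin n → ℕ), Function.Injective key →
  ∃ ρ : Equiv.Perm (Fin n), ∀ x y, ρ x < ρ y ↔ key x < key y

/-- numerics for part L -/
def S_NUML : Prop := ∀ C : ℕ, ∃ T : ℕ, 0 < T ∧ ∀ N : ℕ, ∃ m₀ : ℕ, ∀ m ≥ m₀, ∀ b : ℕ,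
  m ≤ 3 * C * (b + 1) → T < m ∧
    2 * (1 + T * (m + 1) ^ (T - 1) * (2 ^ b) ^ 2) ^ m ≤ (2 ^ b) ^ (3 * m) ∧
    (2 * (2 * (T + 1)) ^ m) * (m * N) ^ T < (2 ^ b) ^ T

/-- core of part L -/
def S_CORE : Prop := ∀ C : ℕ, ∃ q : ℕ, ∀ N : ℕ, ∃ m₀ : ℕ, q < m₀ ∧ ∀ m ≥ m₀, ∀ n : ℕ,
  m ^ 2 ≤ C * Nat.log 2 n → ∀ key : Fin m → Fin n → ℕ, (∀ l, Function.Injective (key l)) →
  ∃ (E : Finset (Fin m)) (a b : Fin N → Fin n), E.card ≤ q ∧ (∀ i, a i ≠ b i) ∧
    (∀ l, SameType (key l) a b) ∧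
    ∀ l, l ∉ E → ∀ i k, i ≠ k → Sep (key l) (a i) (b i) (a k) (b k)

/-- Ramsey for triples, coloured pairs -/
def S_RAM : Prop := ∀ (γ : Type) [Fintype γ], ∃ N : ℕ, ∀ χ : Fin N → Fin N → γ,
  ∃ i j k : Fin N, i < j ∧ j < k ∧ χ i j = χ i k ∧ χ i k = χ j k

/-- at most 20 patterns -/
def S_L20 : Prop := ∀ (β ι : Type) [Fintype ι] (key : ι → β → ℕ) (a b : Fin 3 → β),
  (∀ l, Function.Injective (key l)) → Function.Injective (six a b) →
  (∀ l, SameType (key l) a b ∧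
    ((∀ i k, i ≠ k → Sep (key l) (a i) (b i) (a k) (b k)) ∨ Hom (key l) a b)) →
  (univ.image (fun l => ipat (six a b) (key l))).card ≤ 20

/-- part L -/
def S_LOW : Prop := ∀ C : ℕ, ∃ n₀ : ℕ, ∀ n ≥ n₀, ∀ P : Finset (Equiv.Perm (Fin n)),
  P.card ^ 2 ≤ C * Nat.log 2 n → ∃ x : Fin 6 → Fin n, Function.Injective x ∧
    (P.image (fun ρ => ipat x (fun y => (ρ y : ℕ)))).card ≤ 20

/-! ### part U -/

/-- general lexicographic orders with flips -/
def S_GL : Prop := ∀ (r a : ℕ) (st : Pos r a → ℕ) (fl : Om r a → Pos r a → Bool),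
  (∀ x y p, (∀ p', Before st p' p → x p'.1 p'.2 = y p'.1 p'.2) → fl x p = fl y p) →
  ∃ key : Om r a → ℕ, Function.Injective key ∧
    ∀ x y p, FD st x y p → (key x < key y ↔ x p.1 p.2 = fl x p)

/-- weighted lexicographic orders -/
def S_WT : Prop := ∀ (r a : ℕ) (W : Fin r × (Fin a → Bool) → Fin 3),
  ∃ key : Om r a → ℕ, Function.Injective key ∧ WtKey W key

/-- universal families of functions -/
def S_UNIV : Prop := ∀ (V : Type) [Fintype V] [DecidableEq V] [Nonempty V] (t : ℕ), ∃ C : ℕ,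
  ∀ (U : Type) [Fintype U] [DecidableEq U] (K : ℕ), Fintype.card U ≤ 2 ^ K →
  ∃ F : Finset (U → V), F.card ≤ C * (K + 1) ∧
    ∀ S : Finset U, S.card ≤ t → ∀ g : U → V, ∃ f ∈ F, ∀ u ∈ S, f u = g u

/-- rich families exist -/
def S_RICH : Prop := ∃ C : ℕ, ∀ r κ a : ℕ, ∃ F : Finset (Om r a → ℕ), Rich κ F ∧
  F.card ≤ C * (a + 1) + C * (r + 1) * (r + κ + 1) * (Nat.log 2 (r * (a + 1)) + 1) +
    r * (r + 1) * (a / κ + 1)

/-- numerics for part U -/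
def S_NUMU : Prop := ∀ C K : ℕ, ∃ r κ n₀ : ℕ, 0 < κ ∧ ∀ n ≥ n₀, ∃ a : ℕ, n ≤ 2 ^ (r * a) ∧
  K * (C * (a + 1) + C * (r + 1) * (r + κ + 1) * (Nat.log 2 (r * (a + 1)) + 1) +
    r * (r + 1) * (a / κ + 1)) ≤ Nat.log 2 n

/-- the count -/
def S_CNT : Prop := ∀ (r a κ : ℕ) (F : Finset (Om r a → ℕ)), 0 < κ → Rich κ F →
  ∀ x : Fin 6 → Om r a, Function.Injective x → 21 ≤ np F x

/-- part U -/
def S_UP : Prop := ∀ K : ℕ, ∃ n₀ : ℕ, ∀ n ≥ n₀, ∃ P : Finset (Equiv.Perm (Fin n)),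
  K * P.card ≤ Nat.log 2 n ∧ ∀ x : Fin 6 → Fin n, Function.Injective x →
    21 ≤ (P.image (fun ρ => ipat x (fun y => (ρ y : ℕ)))).card

/-! ### pieces of the count -/

/-- six points can be sorted -/
def S_SRT : Prop := ∀ (r a : ℕ) (x : Fin 6 → Om r a), Function.Injective x →
  ∃ (σ : Equiv.Perm (Fin 6)) (p : Fin 5 → Pos r a), Srt (fun i => x (σ i)) p

/-- between equal positions there is a smaller one -/
def S_UMIN : Prop := ∀ (r a : ℕ) (y : Fin 6 → Om r a) (p : Fin 5 → Pos r a), Srt y p →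
  ∀ i k, i < k → p i = p k → ∃ h, i < h ∧ h < k ∧ nrk (p h) < nrk (p i)

/-- equal labels give collisions -/
def S_COL : Prop := ∀ (r a : ℕ) (y : Fin 6 → Om r a) (p : Fin 5 → Pos r a), Srt y p →
  ∀ i k, i < k → lab (y i.castSucc) (p i) = lab (y k.castSucc) (p k) →
    Coll (y i.castSucc) (y i.succ) (y k.castSucc) (y k.succ) (p i).1 (p i).2

/-- many patterns from labels -/
def S_LABN : Prop := ∀ (r a κ : ℕ) (F : Finset (Om r a → ℕ)), Rich κ F →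
  ∀ (y : Fin 6 → Om r a) (p : Fin 5 → Pos r a), Srt y p →
    2 ^ (univ.image (fun i : Fin 5 => lab (y i.castSucc) (p i))).card ≤
      nq F (fun key => ∃ φ, LabKey φ key) y

/-- eight patterns from one reading order -/
def S_EIGHT : Prop := ∀ (r a : ℕ) (F : Finset (Om r a → ℕ)) (st : Pos r a → ℕ), Uni F st →
  ∀ x : Fin 6 → Om r a, Function.Injective x → 8 ≤ nq F (fun key => ∃ φ, PosKey st φ key) x

/-- types on collisions -/
def S_TYP : Prop := ∀ (r a : ℕ) (x y z v : Om r a) (j : Fin r) (d : Fin a), Coll x y z v j d →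
  ∀ key : Om r a → ℕ,
    (∀ φ, LabKey φ key → Blk key x y z v) ∧
    (∀ φ, PosKey (st1 j) φ key → Crs key x y z v) ∧
    (∀ i φ, i < j → PosKey (st1 i) φ key → Blk key x y z v) ∧
    (∀ i φ, i < j → PosKey (st2 i j) φ key → x i ≠ z i → Blk key x y z v) ∧
    (∀ i φ, i < j → PosKey (st2 i j) φ key → x i = z i → Crs key x y z v)

/-- special case I: twelve patterns -/
def S_IA : Prop := ∀ (r a κ : ℕ) (F : Finset (Om r a → ℕ)), Rich κ F →
  ∀ (X Z : Fin 3 → Om r a) (i j : Fin r) (d e : Fin a), CaseI X Z i j d e →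
    12 ≤ nq F (AI X Z) (six X Z)

/-- special case I: eight patterns -/
def S_IB : Prop := ∀ (r a κ : ℕ) (F : Finset (Om r a → ℕ)), Rich κ F →
  ∀ (X Z : Fin 3 → Om r a) (i j : Fin r) (d e : Fin a), CaseI X Z i j d e →
    8 ≤ nq F (BI X Z) (six X Z)

/-- special case I: one more pattern -/
def S_IX : Prop := ∀ (r a κ : ℕ) (F : Finset (Om r a → ℕ)), 0 < κ → Rich κ F →
  ∀ (X Z : Fin 3 → Om r a) (i j : Fin r) (d e : Fin a), CaseI X Z i j d e →
    ∃ key ∈ F, ¬ AI X Z key ∧ ¬ BI X Z key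

/-- special case II: twelve patterns -/
def S_IIA : Prop := ∀ (r a κ : ℕ) (F : Finset (Om r a → ℕ)), Rich κ F →
  ∀ (X Y : Fin 3 → Om r a) (i j : Fin r) (c d e : Fin a), CaseII X Y i j c d e →
    12 ≤ nq F (AII X Y) (six X Y)

/-- special case II: eight patterns -/
def S_IIB : Prop := ∀ (r a κ : ℕ) (F : Finset (Om r a → ℕ)), Rich κ F →
  ∀ (X Y : Fin 3 → Om r a) (i j : Fin r) (c d e : Fin a), CaseII X Y i j c d e →
    8 ≤ nq F (BII X Y j) (six X Y)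

/-- special case II: one more pattern -/
def S_IIX : Prop := ∀ (r a κ : ℕ) (F : Finset (Om r a → ℕ)), 0 < κ → Rich κ F →
  ∀ (X Y : Fin 3 → Om r a) (i j : Fin r) (c d e : Fin a), CaseII X Y i j c d e →
    ∃ key ∈ F, ¬ AII X Y key ∧ ¬ BII X Y j key

/-- classification of the six points when there are only three labels -/
def S_CLS : Prop := ∀ (r a : ℕ) (y : Fin 6 → Om r a) (p : Fin 5 → Pos r a), Srt y p →
  (univ.image (fun i : Fin 5 => lab (y i.castSucc) (p i))).card ≤ 3 →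
  (∃ i k i' k' : Fin 5,
    Coll (y i.castSucc) (y i.succ) (y k.castSucc) (y k.succ) (p i).1 (p i).2 ∧
    Coll (y i'.castSucc) (y i'.succ) (y k'.castSucc) (y k'.succ) (p i').1 (p i').2 ∧
    (p i).1 < (p i').1) ∨
  (∃ (i k l : Fin 5) (b : Fin r),
    Coll (y i.castSucc) (y i.succ) (y k.castSucc) (y k.succ) (p i).1 (p i).2 ∧
    Coll (y i.castSucc) (y i.succ) (y l.castSucc) (y l.succ) (p i).1 (p i).2 ∧
    b < (p i).1 ∧ y i.castSucc b = y k.castSucc b ∧ y i.castSucc b ≠ y l.castSucc b) ∨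
  (∃ (σ : Equiv.Perm (Fin 6)) (X Z : Fin 3 → Om r a) (i j : Fin r) (d e : Fin a),
    six X Z = (fun h => y (σ h)) ∧ CaseI X Z i j d e) ∨
  (∃ (σ : Equiv.Perm (Fin 6)) (X Y : Fin 3 → Om r a) (i j : Fin r) (c d e : Fin a),
    six X Y = (fun h => y (σ h)) ∧ CaseII X Y i j c d e)

/-- the possible sequences of levels -/
def S_SEQ : Prop := ∀ p : Fin 5 → ℕ, (∀ i k, i < k → p i = p k → ∃ h, i < h ∧ h < k ∧ p h < p i) →
  3 ≤ (univ.image p).card ∧ ((univ.image p).card = 3 → ∃ d : Fin 3 → ℕ, d 0 < d 1 ∧ d 1 < d 2 ∧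
    (p = ![d 2, d 1, d 2, d 0, d 2] ∨ p = ![d 2, d 0, d 2, d 1, d 2] ∨
     p = ![d 2, d 1, d 2, d 0, d 1] ∨ p = ![d 1, d 0, d 2, d 1, d 2] ∨
     p = ![d 2, d 1, d 0, d 2, d 1] ∨ p = ![d 2, d 1, d 0, d 1, d 2] ∨
     p = ![d 1, d 2, d 0, d 2, d 1] ∨ p = ![d 1, d 2, d 0, d 1, d 2]))

/-! ### conversion -/

/-- the number of induced orders is the number of patterns -/
def S_CONV : Prop := ∀ (n : ℕ) (P : Finset (Equiv.Perm (Fin n))) (x : Fin 6 → Fin n),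
  Function.Injective x →
  ((fun ρ : Equiv.Perm (Fin n) => inducedOrder ρ (univ.image x)) ''
    (P : Set (Equiv.Perm (Fin n)))).ncard =
  (P.image (fun ρ => ipat x (fun y => (ρ y : ℕ)))).card

end W926.PS
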