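import Mathlib
import Pool.Agent.W926.PS.Stm

/-!
Project PS: basic lemmas for part U.
-/

namespace W926.PS

open Finset

variable {r a : ℕ}

lemma nrk_inj {p p' : Pos r a} (h : nrk p = nrk p') : p = p' := by
  obtain ⟨i, d⟩ := p
  obtain ⟨i', d'⟩ := p'
  simp only [nrk] at h
  have hd := d.2
  have hd' := d'.2
  have h1 : (i : ℕ) = i' := by
    have e1 : ((i : ℕ) * a + d) / a = i := by
      rw [Nat.mul_comm, Nat.mul_add_div (by omega), Nat.div_eq_of_lt hd, add_zero]
    have e2 : ((i' : ℕ) * a + d') / a = i' := by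
      rw [Nat.mul_comm, Nat.mul_add_div (by omega), Nat.div_eq_of_lt hd', add_zero]
    rw [← e1, ← e2, h]
  have h2 : (d : ℕ) = d' := by
    rw [h1] at h
    omega
  exact Prod.ext (Fin.ext h1) (Fin.ext h2)

lemma nrk_lt_iff {p p' : Pos r a} : nrk p < nrk p' ↔ (p.1 < p'.1 ∨ (p.1 = p'.1 ∧ p.2 < p'.2)) := by
  obtain ⟨i, d⟩ := p
  obtain ⟨i', d'⟩ := p'
  simp only [nrk, Fin.lt_def, Fin.ext_iff]
  have hd := d.2
  have hd' := d'.2
  rcases lt_trichotomy (i : ℕ) i' with h | h | h
  · have : ((i : ℕ) + 1) * a ≤ i' * a := Nat.mul_le_mul_right a h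
    constructor
    · intro _; exact Or.inl h
    · intro _; nlinarith
  · rw [h]
    constructor
    · intro h'; right; exact ⟨rfl, by omega⟩
    · rintro (h' | h')
      · omega
      · omega
  · have : ((i' : ℕ) + 1) * a ≤ i * a := Nat.mul_le_mul_right a h
    constructor
    · intro h'; nlinarith
    · rintro (h' | h')
      · omega
      · omega

lemma Before.irrefl (st : Pos r a → ℕ) (p : Pos r a) : ¬ Before st p p := by
  unfold Before; omega

lemma Before.trans {st : Pos r a → ℕ} {p q s : Pos r a} (h : Before st p q) (h' : Before st q s) :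
    Before st p s := by
  unfold Before at *; omega

lemma before_or {st : Pos r a → ℕ} {p q : Pos r a} (h : p ≠ q) : Before st p q ∨ Before st q p := by
  unfold Before
  have : nrk p ≠ nrk q := fun e => h (nrk_inj e)
  omega

lemma exists_FD (st : Pos r a → ℕ) {x y : Om r a} (h : x ≠ y) : ∃ p, FD st x y p := by
  classical
  set S : Finset (Pos r a) := univ.filter (fun p => x p.1 p.2 ≠ y p.1 p.2) with hS
  have hne : S.Nonempty := by
    by_contra hS'
    rw [Finset.not_nonempty_iff_eq_empty] at hS'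
    apply h
    funext i d
    by_contra hne
    have : (i, d) ∈ S := by simp [hS, hne]
    rw [hS'] at this
    simp at this
  obtain ⟨p, hp, hmin⟩ := S.exists_min_image (fun p => toLex (st p, nrk p)) hne
  refine ⟨p, ?_, by simpa [hS] using hp⟩
  intro p' hb
  by_contra hne'
  have h1 := hmin p' (by simp [hS, hne'])
  rw [Prod.Lex.toLex_le_toLex] at h1
  unfold Before at hb
  simp only at h1
  omega

lemma FD.symm {st : Pos r a → ℕ} {x y : Om r a} {p : Pos r a} (h : FD st x y p) : FD st y x p :=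
  ⟨fun p' hp => (h.1 p' hp).symm, fun e => h.2 e.symm⟩

lemma FD.unique {st : Pos r a → ℕ} {x y : Om r a} {p q : Pos r a} (h : FD st x y p)
    (h' : FD st x y q) : p = q := by
  by_contra hne
  rcases before_or (st := st) hne with hb | hb
  · exact h.2 (h'.1 p hb)
  · exact h'.2 (h.1 q hb)

lemma before_st0 {p p' : Pos r a} :
    Before st0 p' p ↔ (p'.1 < p.1 ∨ (p'.1 = p.1 ∧ p'.2 < p.2)) := by
  rw [← nrk_lt_iff]
  simp [Before, st0]

/-- a first difference in the natural order -/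
lemma FD0_iff {x y : Om r a} {p : Pos r a} : FD st0 x y p ↔
    (∀ i, i < p.1 → x i = y i) ∧ (∀ e, e < p.2 → x p.1 e = y p.1 e) ∧ x p.1 p.2 ≠ y p.1 p.2 := by
  constructor
  · intro h
    refine ⟨fun i hi => ?_, fun e he => ?_, h.2⟩
    · funext e
      exact h.1 (i, e) (before_st0.2 (Or.inl hi))
    · exact h.1 (p.1, e) (before_st0.2 (Or.inr ⟨rfl, he⟩))
  · rintro ⟨h1, h2, h3⟩
    refine ⟨?_, h3⟩
    rintro ⟨i, e⟩ hb
    rcases before_st0.1 hb with h | ⟨h, h'⟩
    · simp only at h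
      exact congrFun (h1 i h) e
    · simp only at h h'
      subst h
      exact h2 e h'

lemma not_lt_of_inj {β : Type} {key : β → ℕ} (hk : Function.Injective key) {x y : β} (h : x ≠ y) :
    ¬ key x < key y ↔ key y < key x := by
  have : key x ≠ key y := fun e => h (hk e)
  omega

/-- crossing type from a common split -/
lemma crs_of {st : Pos r a → ℕ} {φ : Pos r a → Bool} {key : Om r a → ℕ} (hk : PosKey st φ key)
    {x y z v : Om r a} {p : Pos r a}
    (h : ∀ p', Before st p' p → x p'.1 p'.2 = y p'.1 p'.2 ∧ x p'.1 p'.2 = z p'.1 p'.2 ∧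
      x p'.1 p'.2 = v p'.1 p'.2)
    (hxz : x p.1 p.2 = z p.1 p.2) (hyv : y p.1 p.2 = v p.1 p.2) (hxy : x p.1 p.2 ≠ y p.1 p.2) :
    Crs key x y z v := by
  have e1 : key x < key y ↔ x p.1 p.2 = φ p :=
    hk x y p ⟨fun p' hp => (h p' hp).1, hxy⟩
  have e2 : key x < key v ↔ x p.1 p.2 = φ p :=
    hk x v p ⟨fun p' hp => (h p' hp).2.2, by rw [← hyv]; exact hxy⟩
  have e3 : key z < key y ↔ z p.1 p.2 = φ p :=
    hk z y p ⟨fun p' hp => by rw [← (h p' hp).2.1, (h p' hp).1], by rw [← hxz]; exact hxy⟩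
  have e4 : key z < key v ↔ z p.1 p.2 = φ p :=
    hk z v p ⟨fun p' hp => by rw [← (h p' hp).2.1, (h p' hp).2.2], by rw [← hxz, ← hyv]; exact hxy⟩
  rw [← hxz] at e3 e4
  exact ⟨e1.trans e2.symm, e1.trans e3.symm, e1.trans e4.symm⟩

/-- block type from a common split -/
lemma blk_of {st : Pos r a → ℕ} {φ : Pos r a → Bool} {key : Om r a → ℕ} (hk : PosKey st φ key)
    {x y z v : Om r a} {p : Pos r a}
    (h : ∀ p', Before st p' p → x p'.1 p'.2 = y p'.1 p'.2 ∧ x p'.1 p'.2 = z p'.1 p'.2 ∧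
      x p'.1 p'.2 = v p'.1 p'.2)
    (hxy : x p.1 p.2 = y p.1 p.2) (hzv : z p.1 p.2 = v p.1 p.2) (hxz : x p.1 p.2 ≠ z p.1 p.2) :
    Blk key x y z v := by
  have e1 : key x < key z ↔ x p.1 p.2 = φ p :=
    hk x z p ⟨fun p' hp => (h p' hp).2.1, hxz⟩
  have e2 : key x < key v ↔ x p.1 p.2 = φ p :=
    hk x v p ⟨fun p' hp => (h p' hp).2.2, by rw [← hzv]; exact hxz⟩
  have e3 : key y < key z ↔ y p.1 p.2 = φ p :=
    hk y z p ⟨fun p' hp => by rw [← (h p' hp).1, (h p' hp).2.1], by rw [← hxy]; exact hxz⟩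
  have e4 : key y < key v ↔ y p.1 p.2 = φ p :=
    hk y v p ⟨fun p' hp => by rw [← (h p' hp).1, (h p' hp).2.2], by rw [← hxy, ← hzv]; exact hxz⟩
  rw [← hxy] at e3 e4
  exact ⟨e1.trans e2.symm, e1.trans e3.symm, e1.trans e4.symm⟩

lemma not_blk_crs {β : Type} {key : β → ℕ} (hk : Function.Injective key) {x y z v : β}
    (hyz : y ≠ z) (h1 : Blk key x y z v) (h2 : Crs key x y z v) : False := by
  have h3 := not_lt_of_inj hk hyz
  unfold Blk at h1
  unfold Crs at h2
  obtain ⟨a1, a2, a3⟩ := h1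
  obtain ⟨b1, b2, b3⟩ := h2
  by_cases h : key y < key z
  · have : key z < key y := b2.1 (b1.2 (a1.1 (a2.2 h)))
    omega
  · have h4 := h3.1 h
    exact h (a2.1 (a1.2 (b1.1 (b2.2 h4))))

lemma ipat_lt {β : Type} {x : Fin 6 → β} {k1 k2 : β → ℕ} (h : ipat x k1 = ipat x k2) (i j : Fin 6) :
    k1 (x i) < k1 (x j) ↔ k2 (x i) < k2 (x j) := by
  have := congrFun (congrFun h i) j
  simpa [ipat] using this

lemma ipat_blk {β : Type} {x : Fin 6 → β} {k1 k2 : β → ℕ} (h : ipat x k1 = ipat x k2)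
    (i j k l : Fin 6) : Blk k1 (x i) (x j) (x k) (x l) ↔ Blk k2 (x i) (x j) (x k) (x l) := by
  unfold Blk
  simp only [ipat_lt h]

lemma ipat_crs {β : Type} {x : Fin 6 → β} {k1 k2 : β → ℕ} (h : ipat x k1 = ipat x k2)
    (i j k l : Fin 6) : Crs k1 (x i) (x j) (x k) (x l) ↔ Crs k2 (x i) (x j) (x k) (x l) := by
  unfold Crs
  simp only [ipat_lt h]

/-- adding the numbers of patterns of two exclusive kinds -/
lemma nq_add {β : Type} (F : Finset (β → ℕ)) (A B : (β → ℕ) → Prop) (x : Fin 6 → β)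
    (h : ∀ k1 ∈ F, ∀ k2 ∈ F, ipat x k1 = ipat x k2 → A k1 → B k2 → False) :
    nq F A x + nq F B x ≤ np F x := by
  classical
  unfold nq np
  rw [← Finset.card_union_of_disjoint]
  · apply Finset.card_le_card
    intro T hT
    rw [Finset.mem_union] at hT
    rcases hT with hT | hT
    · obtain ⟨k, hk, rfl⟩ := Finset.mem_image.1 hT
      exact Finset.mem_image_of_mem _ (Finset.mem_filter.1 hk).1
    · obtain ⟨k, hk, rfl⟩ := Finset.mem_image.1 hT
      exact Finset.mem_image_of_mem _ (Finset.mem_filter.1 hk).1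
  · rw [Finset.disjoint_left]
    intro T h1 h2
    obtain ⟨k1, hk1, e1⟩ := Finset.mem_image.1 h1
    obtain ⟨k2, hk2, e2⟩ := Finset.mem_image.1 h2
    rw [Finset.mem_filter] at hk1 hk2
    exact h k1 hk1.1 k2 hk2.1 (e1.trans e2.symm) hk1.2 hk2.2

/-- adding the numbers of patterns of three exclusive kinds -/
lemma nq_add3 {β : Type} (F : Finset (β → ℕ)) (A B C : (β → ℕ) → Prop) (x : Fin 6 → β)
    (h : ∀ k1 ∈ F, ∀ k2 ∈ F, ipat x k1 = ipat x k2 → A k1 → B k2 → False)
    (h' : ∀ k1 ∈ F, ∀ k2 ∈ F, ipat x k1 = ipat x k2 → A k1 → C k2 → False)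
    (h'' : ∀ k1 ∈ F, ∀ k2 ∈ F, ipat x k1 = ipat x k2 → B k1 → C k2 → False) :
    nq F A x + nq F B x + nq F C x ≤ np F x := by
  classical
  obtain ⟨AB, hAB⟩ : ∃ AB : (β → ℕ) → Prop, ∀ k, AB k ↔ (A k ∨ B k) := ⟨_, fun _ => Iff.rfl⟩
  have h1 : nq F A x + nq F B x ≤ nq F AB x := by
    unfold nq
    rw [← Finset.card_union_of_disjoint]
    · apply Finset.card_le_card
      intro T hT
      rw [Finset.mem_union] at hT
      rcases hT with hT | hT
      · obtain ⟨k, hk, rfl⟩ := Finset.mem_image.1 hT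
        rw [Finset.mem_filter] at hk
        exact Finset.mem_image_of_mem _ (Finset.mem_filter.2 ⟨hk.1, (hAB k).2 (Or.inl hk.2)⟩)
      · obtain ⟨k, hk, rfl⟩ := Finset.mem_image.1 hT
        rw [Finset.mem_filter] at hk
        exact Finset.mem_image_of_mem _ (Finset.mem_filter.2 ⟨hk.1, (hAB k).2 (Or.inr hk.2)⟩)
    · rw [Finset.disjoint_left]
      intro T h1 h2
      obtain ⟨k1, hk1, e1⟩ := Finset.mem_image.1 h1
      obtain ⟨k2, hk2, e2⟩ := Finset.mem_image.1 h2
      rw [Finset.mem_filter] at hk1 hk2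
      exact h k1 hk1.1 k2 hk2.1 (e1.trans e2.symm) hk1.2 hk2.2
  have h2 := nq_add F AB C x (fun k1 hk1 k2 hk2 e hab hc => by
    rcases (hAB k1).1 hab with ha | hb
    · exact h' k1 hk1 k2 hk2 e ha hc
    · exact h'' k1 hk1 k2 hk2 e hb hc)
  omega

lemma nq_mono {β : Type} (F : Finset (β → ℕ)) (A B : (β → ℕ) → Prop) (x : Fin 6 → β)
    (h : ∀ k ∈ F, A k → B k) : nq F A x ≤ nq F B x := by
  classical
  unfold nq
  apply Finset.card_le_card
  intro T hT
  obtain ⟨k, hk, rfl⟩ := Finset.mem_image.1 hT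
  rw [Finset.mem_filter] at hk
  exact Finset.mem_image_of_mem _ (Finset.mem_filter.2 ⟨hk.1, h k hk.1 hk.2⟩)

lemma one_le_nq {β : Type} (F : Finset (β → ℕ)) (A : (β → ℕ) → Prop) (x : Fin 6 → β)
    {k : β → ℕ} (hk : k ∈ F) (h : A k) : 1 ≤ nq F A x := by
  classical
  unfold nq
  rw [Nat.succ_le_iff, Finset.card_pos]
  exact ⟨ipat x k, Finset.mem_image_of_mem _ (Finset.mem_filter.2 ⟨hk, h⟩)⟩

lemma nq_le_np {β : Type} (F : Finset (β → ℕ)) (A : (β → ℕ) → Prop) (x : Fin 6 → β) :
    nq F A x ≤ np F x := by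
  classical
  unfold nq np
  exact Finset.card_le_card (Finset.image_subset_image (Finset.filter_subset _ _))

lemma nq_perm {β : Type} (F : Finset (β → ℕ)) (A : (β → ℕ) → Prop) (x : Fin 6 → β)
    (σ : Equiv.Perm (Fin 6)) : nq F A (fun i => x (σ i)) = nq F A x := by
  classical
  unfold nq
  have : (F.filter A).image (ipat (fun i => x (σ i))) =
      ((F.filter A).image (ipat x)).image (fun T i k => T (σ i) (σ k)) := by
    rw [Finset.image_image]
    rfl
  rw [this, Finset.card_image_of_injective]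
  intro T T' h
  funext i k
  have := congrFun (congrFun h (σ.symm i)) (σ.symm k)
  simpa using this

lemma np_perm {β : Type} (F : Finset (β → ℕ)) (x : Fin 6 → β)
    (σ : Equiv.Perm (Fin 6)) : np F (fun i => x (σ i)) = np F x := by
  classical
  unfold np
  have : F.image (ipat (fun i => x (σ i))) =
      (F.image (ipat x)).image (fun T i k => T (σ i) (σ k)) := by
    rw [Finset.image_image]
    rfl
  rw [this, Finset.card_image_of_injective]
  intro T T' h
  funext i k
  have := congrFun (congrFun h (σ.symm i)) (σ.symm k)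
  simpa using this

/-- lower bound for the number of patterns by an injection: every parameter `s` has a key, and the
patterns of keys for different parameters differ -/
lemma le_nq {β σ : Type} [Fintype σ] (F : Finset (β → ℕ)) (A : (β → ℕ) → Prop) (x : Fin 6 → β)
    (k : σ → β → ℕ) (hF : ∀ s, k s ∈ F) (hA : ∀ s, A (k s))
    (hinj : ∀ s t, ipat x (k s) = ipat x (k t) → s = t) : Fintype.card σ ≤ nq F A x := by
  classical
  unfold nq
  rw [← Finset.card_univ]
  apply Finset.card_le_card_of_injOn (fun s => ipat x (k s))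
  · intro s _
    exact Finset.mem_coe.2 (Finset.mem_image_of_mem _ (Finset.mem_filter.2 ⟨hF s, hA s⟩))
  · intro s _ t _ h
    exact hinj s t h

end W926.PS
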