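import Mathlib
import Pool.Agent.W926.PS.Base

/-!
Project PS: from the two parts to the asymptotic statements.
-/

namespace W926.PS

open Finset Filter Asymptotics

lemma natlog_le (n : ℕ) (hn : 1 ≤ n) : (Nat.log 2 n : ℝ) ≤ 2 * Real.log n := by
  have h1 : (2 : ℝ) ^ (Nat.log 2 n) ≤ n := by
    exact_mod_cast Nat.pow_log_le_self 2 (by omega)
  have hn' : (0 : ℝ) < n := by exact_mod_cast hn
  have h2 : (Nat.log 2 n : ℝ) * Real.log 2 ≤ Real.log n := by
    rw [← Real.log_pow]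
    exact Real.log_le_log (by positivity) h1
  have h3 : (0.6931471803 : ℝ) < Real.log 2 := Real.log_two_gt_d9
  have h4 : (0 : ℝ) ≤ (Nat.log 2 n : ℝ) := Nat.cast_nonneg _
  nlinarith

lemma log_le_natlog (n : ℕ) (hn : 2 ≤ n) : Real.log n ≤ 2 * (Nat.log 2 n : ℝ) := by
  have h1 : (n : ℝ) < (2 : ℝ) ^ (Nat.log 2 n + 1) := by
    exact_mod_cast Nat.lt_pow_succ_log_self (by norm_num) n
  have hn' : (0 : ℝ) < n := by
    have : 0 < n := by omega
    exact_mod_cast this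
  have h2 : Real.log n ≤ ((Nat.log 2 n + 1 : ℕ) : ℝ) * Real.log 2 := by
    rw [← Real.log_pow]
    exact Real.log_le_log hn' h1.le
  have h3 : Real.log 2 < (0.6931471808 : ℝ) := Real.log_two_lt_d9
  have h4 : 1 ≤ Nat.log 2 n := by
    apply Nat.le_log_of_pow_le (by norm_num)
    simpa using hn
  have h5 : (1 : ℝ) ≤ (Nat.log 2 n : ℝ) := by exact_mod_cast h4
  push_cast at h2
  have h6 : (0 : ℝ) < Real.log 2 := Real.log_pos (by norm_num)
  nlinarith

/-- the images of injective six-tuples are the six-element sets -/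
lemma exists_tuple {n : ℕ} (X : Finset (Fin n)) (hX : X.card = 6) :
    ∃ x : Fin 6 → Fin n, Function.Injective x ∧ univ.image x = X := by
  refine ⟨fun i => X.orderEmbOfFin hX i, (X.orderEmbOfFin hX).injective, ?_⟩
  ext y
  simp only [Finset.mem_image, Finset.mem_univ, true_and]
  constructor
  · rintro ⟨i, rfl⟩
    exact X.orderEmbOfFin_mem hX i
  · intro hy
    have : y ∈ Set.range (X.orderEmbOfFin hX) := by
      rw [Finset.range_orderEmbOfFin]
      exact_mod_cast hy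
    obtain ⟨i, hi⟩ := this
    exact ⟨i, hi⟩

lemma up_shatters (hU : S_UP) (hC : S_CONV) (K : ℕ) : ∃ n₀ : ℕ, ∀ n ≥ n₀,
    ∃ P : Finset (Equiv.Perm (Fin n)), K * P.card ≤ Nat.log 2 n ∧
      ∀ X : Finset (Fin n), X.card = 6 → Shatters 21 P X := by
  obtain ⟨n₀, h⟩ := hU K
  refine ⟨n₀, fun n hn => ?_⟩
  obtain ⟨P, hP, h21⟩ := h n hn
  refine ⟨P, hP, fun X hX => ?_⟩
  obtain ⟨x, hx, rfl⟩ := exists_tuple X hX
  unfold Shatters
  rw [hC n P x hx]
  exact h21 x hx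

lemma f_le {k n t : ℕ} (P : Finset (Equiv.Perm (Fin n)))
    (h : ∀ X : Finset (Fin n), X.card = k → Shatters t P X) : f k n t ≤ P.card :=
  Nat.sInf_le ⟨P, rfl, h⟩

lemma f_mem {k n t : ℕ} (P : Finset (Equiv.Perm (Fin n)))
    (h : ∀ X : Finset (Fin n), X.card = k → Shatters t P X) :
    ∃ P : Finset (Equiv.Perm (Fin n)), P.card = f k n t ∧
      ∀ X : Finset (Fin n), X.card = k → Shatters t P X :=
  Nat.sInf_mem (s := {s | ∃ P : Finset (Equiv.Perm (Fin n)), P.card = s ∧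
    ∀ X : Finset (Fin n), X.card = k → Shatters t P X}) ⟨P.card, P, rfl, h⟩

theorem upper (hU : S_UP) (hC : S_CONV) : ∀ ε : ℝ, 0 < ε → ∃ n₀ : ℕ, ∀ n ≥ n₀,
    (f 6 n 21 : ℝ) ≤ ε * Real.log n := by
  intro ε hε
  obtain ⟨K, hK⟩ := exists_nat_gt (2 / ε)
  obtain ⟨n₀, h⟩ := up_shatters hU hC K
  refine ⟨max n₀ 1, fun n hn => ?_⟩
  obtain ⟨P, hP, hX⟩ := h n (le_trans (le_max_left _ _) hn)
  have h1 : (f 6 n 21 : ℝ) ≤ P.card := by exact_mod_cast f_le P hX
  have h2 := natlog_le n (le_trans (le_max_right _ _) hn)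
  have h3 : (K : ℝ) * P.card ≤ Nat.log 2 n := by exact_mod_cast hP
  have hK0 : (0 : ℝ) < K := lt_trans (by positivity) hK
  have h4 : 2 < ε * K := by
    rw [div_lt_iff₀ hε] at hK
    linarith
  have hlog : 0 ≤ Real.log n := by
    apply Real.log_nonneg
    exact_mod_cast (le_trans (le_max_right _ _) hn)
  have h5 : (K : ℝ) * P.card ≤ K * (ε * Real.log n) := by nlinarith
  exact h1.trans (le_of_mul_le_mul_left h5 hK0)

theorem lower (hL : S_LOW) (hU : S_UP) (hC : S_CONV) : ∀ C : ℝ, ∃ n₀ : ℕ, ∀ n ≥ n₀,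
    C * √(Real.log n) ≤ (f 6 n 21 : ℝ) := by
  intro C
  obtain ⟨D, hD⟩ := exists_nat_gt (2 * C ^ 2)
  obtain ⟨n₀, h⟩ := hL D
  obtain ⟨n₁, h'⟩ := up_shatters hU hC 0
  refine ⟨max (max n₀ n₁) 2, fun n hn => ?_⟩
  have hn0 : n₀ ≤ n := le_trans (le_trans (le_max_left _ _) (le_max_left _ _)) hn
  have hn1 : n₁ ≤ n := le_trans (le_trans (le_max_right _ _) (le_max_left _ _)) hn
  have hn2 : 2 ≤ n := le_trans (le_max_right _ _) hn
  obtain ⟨P', -, hP'⟩ := h' n hn1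
  obtain ⟨P, hPc, hP⟩ := f_mem P' hP'
  have hgt : D * Nat.log 2 n < P.card ^ 2 := by
    by_contra hle
    push Not at hle
    obtain ⟨x, hx, h20⟩ := h n hn0 P hle
    have hs := hP (univ.image x) (by rw [Finset.card_image_of_injective _ hx]; simp)
    unfold Shatters at hs
    rw [hC n P x hx] at hs
    omega
  rw [← hPc]
  have h1 := log_le_natlog n hn2
  have hlog : 0 ≤ Real.log n := by
    apply Real.log_nonneg
    have : 1 ≤ n := by omega
    exact_mod_cast this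
  have h2 : (D : ℝ) * Nat.log 2 n < (P.card : ℝ) ^ 2 := by exact_mod_cast hgt
  have h3 : C ^ 2 * Real.log n ≤ (P.card : ℝ) ^ 2 := by
    have h4 : (0 : ℝ) ≤ (Nat.log 2 n : ℝ) := Nat.cast_nonneg _
    have h5 : C ^ 2 * Real.log n ≤ C ^ 2 * (2 * (Nat.log 2 n : ℝ)) :=
      mul_le_mul_of_nonneg_left h1 (sq_nonneg _)
    nlinarith
  have h6 : (C * √(Real.log n)) ^ 2 ≤ (P.card : ℝ) ^ 2 := by
    rw [mul_pow, Real.sq_sqrt hlog]
    exact h3
  exact le_of_sq_le_sq h6 (Nat.cast_nonneg _)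

end W926.PS
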