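import Mathlib
import Pool.Agent.W926.PS.Final

/-!
Project PS: asymptotic statements.
-/

namespace W926.PS

open Finset Filter Asymptotics

/-- a function between `√log` and `log` (strictly) is `Θ` of none of the four functions -/
theorem four {F : ℕ → ℝ} (hlow : ∀ C : ℝ, ∃ n₀ : ℕ, ∀ n ≥ n₀, C * √(Real.log n) ≤ F n)
    (hup : ∀ ε : ℝ, 0 < ε → ∃ n₀ : ℕ, ∀ n ≥ n₀, F n ≤ ε * Real.log n) :
    ¬ F =Θ[atTop] (fun _ : ℕ => (1 : ℝ)) ∧
    ¬ F =Θ[atTop] (fun n : ℕ => Real.log (Real.log n)) ∧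
    ¬ F =Θ[atTop] (fun n : ℕ => √(Real.log n)) ∧
    ¬ F =Θ[atTop] (fun n : ℕ => Real.log n) := by
  have hlogtop : Tendsto (fun n : ℕ => Real.log n) atTop atTop :=
    Real.tendsto_log_atTop.comp tendsto_natCast_atTop_atTop
  have hA : ¬ F =O[atTop] (fun n : ℕ => √(Real.log n)) := by
    intro h
    obtain ⟨c, hc⟩ := h.bound
    obtain ⟨n₀, h₀⟩ := hlow (c + 1)
    have hev : ∀ᶠ n : ℕ in atTop, False := by
      filter_upwards [hc, eventually_ge_atTop n₀, hlogtop.eventually_gt_atTop 0] with n h1 h2 h3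
      have h4 : 0 < √(Real.log n) := Real.sqrt_pos.2 h3
      rw [Real.norm_eq_abs, Real.norm_eq_abs, abs_of_pos h4] at h1
      have h5 := h₀ n h2
      have h6 := le_abs_self (F n)
      nlinarith
    exact (hev.exists).elim fun _ h => h
  have hB : ¬ (fun n : ℕ => Real.log n) =O[atTop] F := by
    intro h
    obtain ⟨c, hc⟩ := h.bound
    obtain ⟨n₀, h₀⟩ := hup (1 / (2 * (|c| + 1))) (by positivity)
    obtain ⟨n₁, h₁⟩ := hlow 0
    have hev : ∀ᶠ n : ℕ in atTop, False := by
      filter_upwards [hc, eventually_ge_atTop n₀, eventually_ge_atTop n₁,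
        hlogtop.eventually_gt_atTop 0] with n h1 h2 h2' h3
      have hF : 0 ≤ F n := by
        have := h₁ n h2'
        linarith
      rw [Real.norm_eq_abs, Real.norm_eq_abs, abs_of_pos h3, abs_of_nonneg hF] at h1
      have h5 := h₀ n h2
      have h6 : c * F n ≤ |c| * F n := mul_le_mul_of_nonneg_right (le_abs_self c) hF
      have h7 : |c| * F n ≤ (|c| + 1) * (1 / (2 * (|c| + 1)) * Real.log n) := by
        have : |c| * F n ≤ (|c| + 1) * F n := by nlinarith
        exact this.trans (mul_le_mul_of_nonneg_left h5 (by positivity))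
      have h8 : (|c| + 1) * (1 / (2 * (|c| + 1)) * Real.log n) = Real.log n / 2 := by
        have : |c| + 1 ≠ 0 := by positivity
        field_simp
      linarith
    exact (hev.exists).elim fun _ h => h
  have hone : (fun _ : ℕ => (1 : ℝ)) =O[atTop] (fun n : ℕ => √(Real.log n)) := by
    apply IsBigO.of_bound 1
    filter_upwards [hlogtop.eventually_ge_atTop 1] with n hn
    rw [Real.norm_eq_abs, Real.norm_eq_abs, abs_one, one_mul, abs_of_nonneg (Real.sqrt_nonneg _)]
    exact Real.one_le_sqrt.2 hn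
  have hll : (fun n : ℕ => Real.log (Real.log n)) =O[atTop] (fun n : ℕ => √(Real.log n)) := by
    have h1 : (fun x : ℝ => Real.log x) =o[atTop] (fun x : ℝ => x ^ (1 / 2 : ℝ)) :=
      isLittleO_log_rpow_atTop (by norm_num)
    have h2 := h1.comp_tendsto hlogtop
    have h3 : ((fun x : ℝ => x ^ (1 / 2 : ℝ)) ∘ fun n : ℕ => Real.log n) =
        fun n : ℕ => √(Real.log n) := by
      funext n
      simp [Real.sqrt_eq_rpow]
    rw [h3] at h2
    exact h2.isBigO
  exact ⟨fun h => hA (h.1.trans hone), fun h => hA (h.1.trans hll), fun h => hA h.1,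
    fun h => hB h.2⟩

end W926.PS
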