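import Mathlib
import Pool.Agent.W926.PS.Base

/-!
Project PS: assembly of the count.
-/

namespace W926.PS

open Finset

variable {r a : ℕ}

lemma ai_congr {X Z : Fin 3 → Om r a} {k1 k2 : Om r a → ℕ}
    (h : ipat (six X Z) k1 = ipat (six X Z) k2) : AI X Z k1 → AI X Z k2 := by
  rintro ⟨h1, h2, h3⟩
  refine ⟨(ipat_blk h 0 1 3 4).1 h1, (ipat_blk h 0 2 3 5).1 h2, ?_⟩
  have e := fun i j => ipat_lt h i j
  intro g h'
  have hX : ∀ g : Fin 3, X g = six X Z (Fin.castLE (by norm_num) g) := by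
    intro g; fin_cases g <;> rfl
  have hZ : ∀ g : Fin 3, Z g = six X Z (Fin.natAdd 3 g) := by
    intro g; fin_cases g <;> rfl
  have := h3 g h'
  rw [hX g, hX h', hZ g, hZ h'] at this ⊢
  rw [← e, ← e]
  exact this

lemma bi_congr {X Z : Fin 3 → Om r a} {k1 k2 : Om r a → ℕ}
    (h : ipat (six X Z) k1 = ipat (six X Z) k2) : BI X Z k1 → BI X Z k2 := by
  rintro ⟨h1, h2⟩
  refine ⟨(ipat_crs h 0 1 3 4).1 h1, ?_⟩
  have e1 := ipat_lt h 0 2
  have e2 := ipat_lt h 1 2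
  have e1' : k1 (X 0) < k1 (X 2) ↔ k2 (X 0) < k2 (X 2) := e1
  have e2' : k1 (X 1) < k1 (X 2) ↔ k2 (X 1) < k2 (X 2) := e2
  rw [← e1', ← e2']
  exact h2

lemma aii_congr {X Z : Fin 3 → Om r a} {k1 k2 : Om r a → ℕ}
    (h : ipat (six X Z) k1 = ipat (six X Z) k2) : AII X Z k1 → AII X Z k2 := by
  rintro ⟨h1, h3⟩
  have e := fun i j => ipat_lt h i j
  have hX : ∀ g : Fin 3, X g = six X Z (Fin.castLE (by norm_num) g) := by
    intro g; fin_cases g <;> rfl
  have hZ : ∀ g : Fin 3, Z g = six X Z (Fin.natAdd 3 g) := by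
    intro g; fin_cases g <;> rfl
  constructor
  · intro g h' hgh
    have := h1 g h' hgh
    rw [hX g, hX h', hZ g, hZ h'] at this ⊢
    exact (ipat_blk h _ _ _ _).1 this
  · intro g
    have := h3 g
    rw [hX g, hX 0, hZ g, hZ 0] at this ⊢
    rw [← e, ← e]
    exact this

lemma bii_congr {X Z : Fin 3 → Om r a} {j : Fin r} {k1 k2 : Om r a → ℕ}
    (h : ipat (six X Z) k1 = ipat (six X Z) k2) : BII X Z j k1 → BII X Z j k2 := by
  rintro ⟨h1, h2, h3⟩
  refine ⟨(ipat_crs h 0 3 1 4).1 h1, (ipat_crs h 0 3 2 5).1 h2, ?_⟩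
  have e1 := ipat_lt h 0 2
  have e2 := ipat_lt h 1 2
  have e1' : k1 (X 0) < k1 (X 2) ↔ k2 (X 0) < k2 (X 2) := e1
  have e2' : k1 (X 1) < k1 (X 2) ↔ k2 (X 1) < k2 (X 2) := e2
  intro hp
  rw [← e1', ← e2']
  exact h3 hp

lemma coll_ne {x y z v : Om r a} {j : Fin r} {d : Fin a} (h : Coll x y z v j d) : y ≠ z := by
  intro e
  have h1 := h.byy
  have h2 := h.bz
  rw [e, h2] at h1
  exact absurd h1 (by decide)

/-- exclusivity of block type and crossing type -/
lemma excl {κ : ℕ} {F : Finset (Om r a → ℕ)} (hF : Rich κ F) {y : Fin 6 → Om r a}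
    {i j k l : Fin 6} {b : Fin r} {d : Fin a} (hc : Coll (y i) (y j) (y k) (y l) b d)
    {k1 k2 : Om r a → ℕ} (hk1 : k1 ∈ F) (e : ipat y k1 = ipat y k2)
    (h1 : Blk k1 (y i) (y j) (y k) (y l)) (h2 : Crs k2 (y i) (y j) (y k) (y l)) : False :=
  not_blk_crs (hF.inj k1 hk1) (coll_ne hc) h1 ((ipat_crs e i j k l).2 h2)

theorem cnt : S_SRT → S_SEQ → S_UMIN → S_COL → S_LABN → S_EIGHT → S_TYP → S_IA → S_IB → S_IX →
    S_IIA → S_IIB → S_IIX → S_CLS → S_CNT := by
  intro hSRT hSEQ hUMIN hCOL hLABN hEIGHT hTYP hIA hIB hIX hIIA hIIB hIIX hCLS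
  intro r a κ F hκ hF x hx
  obtain ⟨σ, p, hy⟩ := hSRT r a x hx
  rw [← np_perm F x σ]
  set y : Fin 6 → Om r a := fun i => x (σ i) with hydef
  have hyinj : Function.Injective y := fun i j e => σ.injective (hx e)
  have hlab := hLABN r a κ F hF y p hy
  have hc5 : (univ.image (fun i : Fin 5 => lab (y i.castSucc) (p i))).card ≤ 5 := by
    have := Finset.card_image_le (s := (univ : Finset (Fin 5)))
      (f := fun i : Fin 5 => lab (y i.castSucc) (p i))
    simpa using this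
  have hc3 : 3 ≤ (univ.image (fun i : Fin 5 => lab (y i.castSucc) (p i))).card := by
    have h1 := (hSEQ (fun i => nrk (p i)) (fun i k hik e => by
      obtain ⟨h, h1, h2, h3⟩ := hUMIN r a y p hy i k hik (nrk_inj e)
      exact ⟨h, h1, h2, h3⟩)).1
    refine h1.trans ?_
    have h2 : (univ.image (fun i : Fin 5 => nrk (p i))) =
        (univ.image (fun i : Fin 5 => lab (y i.castSucc) (p i))).image (fun s => nrk s.1) := by
      rw [Finset.image_image]
      rfl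
    rw [h2]
    exact Finset.card_image_le
  by_cases hc : (univ.image (fun i : Fin 5 => lab (y i.castSucc) (p i))).card = 5
  · rw [hc] at hlab
    have := hlab.trans (nq_le_np F _ y)
    norm_num at this
    omega
  by_cases hc4 : (univ.image (fun i : Fin 5 => lab (y i.castSucc) (p i))).card = 4
  · have hni : ¬ Function.Injective (fun i : Fin 5 => lab (y i.castSucc) (p i)) := by
      intro hi
      have := Finset.card_image_of_injective (univ : Finset (Fin 5)) hi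
      rw [hc4] at this
      simp at this
    obtain ⟨i, k, hik, e⟩ : ∃ i k : Fin 5, i < k ∧
        lab (y i.castSucc) (p i) = lab (y k.castSucc) (p k) := by
      unfold Function.Injective at hni
      push Not at hni
      obtain ⟨i, k, e, hne⟩ := hni
      rcases lt_or_gt_of_ne hne with h | h
      · exact ⟨i, k, h, e⟩
      · exact ⟨k, i, h, e.symm⟩
    have hcoll := hCOL r a y p hy i k hik e
    have h8 := hEIGHT r a F (st1 (p i).1) (hF.first1 _) y hyinj
    have hadd := nq_add F (fun key => ∃ φ, LabKey φ key) (fun key => ∃ φ, PosKey (st1 (p i).1) φ key)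
      y (by
        rintro k1 hk1 k2 hk2 e' ⟨φ, h1⟩ ⟨φ', h2⟩
        have t1 := (hTYP r a _ _ _ _ _ _ hcoll k1).1 φ h1
        have t2 := (hTYP r a _ _ _ _ _ _ hcoll k2).2.1 φ' h2
        exact excl hF hcoll hk1 e' t1 t2)
    rw [hc4] at hlab
    omega
  have hcard : (univ.image (fun i : Fin 5 => lab (y i.castSucc) (p i))).card = 3 := by omega
  rw [hcard] at hlab
  have hlab8 : 8 ≤ nq F (fun key => ∃ φ, LabKey φ key) y := by
    norm_num at hlab ⊢
    exact hlab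
  rcases hCLS r a y p hy hcard.le with h | h | h | h
  · obtain ⟨i, k, i', k', hQ, hQ', hlt⟩ := h
    have h8 := hEIGHT r a F (st1 (p i).1) (hF.first1 _) y hyinj
    have h8' := hEIGHT r a F (st1 (p i').1) (hF.first1 _) y hyinj
    have hadd := nq_add3 F (fun key => ∃ φ, LabKey φ key)
      (fun key => ∃ φ, PosKey (st1 (p i).1) φ key) (fun key => ∃ φ, PosKey (st1 (p i').1) φ key) y
      (by
        rintro k1 hk1 k2 hk2 e' ⟨φ, h1⟩ ⟨φ', h2⟩
        exact excl hF hQ hk1 e' ((hTYP r a _ _ _ _ _ _ hQ k1).1 φ h1)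
          ((hTYP r a _ _ _ _ _ _ hQ k2).2.1 φ' h2))
      (by
        rintro k1 hk1 k2 hk2 e' ⟨φ, h1⟩ ⟨φ', h2⟩
        exact excl hF hQ' hk1 e' ((hTYP r a _ _ _ _ _ _ hQ' k1).1 φ h1)
          ((hTYP r a _ _ _ _ _ _ hQ' k2).2.1 φ' h2))
      (by
        rintro k1 hk1 k2 hk2 e' ⟨φ, h1⟩ ⟨φ', h2⟩
        exact excl hF hQ' hk1 e' ((hTYP r a _ _ _ _ _ _ hQ' k1).2.2.1 _ φ hlt h1)
          ((hTYP r a _ _ _ _ _ _ hQ' k2).2.1 φ' h2))
    omega
  · obtain ⟨i, k, l, b, hQ, hQ', hb, hbe, hbn⟩ := h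
    have h8 := hEIGHT r a F (st1 (p i).1) (hF.first1 _) y hyinj
    have h8' := hEIGHT r a F (st2 b (p i).1) (hF.first2 _ _) y hyinj
    have hadd := nq_add3 F (fun key => ∃ φ, LabKey φ key)
      (fun key => ∃ φ, PosKey (st1 (p i).1) φ key) (fun key => ∃ φ, PosKey (st2 b (p i).1) φ key) y
      (by
        rintro k1 hk1 k2 hk2 e' ⟨φ, h1⟩ ⟨φ', h2⟩
        exact excl hF hQ hk1 e' ((hTYP r a _ _ _ _ _ _ hQ k1).1 φ h1)
          ((hTYP r a _ _ _ _ _ _ hQ k2).2.1 φ' h2))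
      (by
        rintro k1 hk1 k2 hk2 e' ⟨φ, h1⟩ ⟨φ', h2⟩
        exact excl hF hQ hk1 e' ((hTYP r a _ _ _ _ _ _ hQ k1).1 φ h1)
          ((hTYP r a _ _ _ _ _ _ hQ k2).2.2.2.2 b φ' hb h2 hbe))
      (by
        rintro k1 hk1 k2 hk2 e' ⟨φ, h1⟩ ⟨φ', h2⟩
        exact excl hF hQ' hk2 e'.symm ((hTYP r a _ _ _ _ _ _ hQ' k2).2.2.2.1 b φ' hb h2 hbn)
          ((hTYP r a _ _ _ _ _ _ hQ' k1).2.1 φ h1))
    omega
  · obtain ⟨σ', X, Z, i, j, d, e, hsix, hI⟩ := h
    rw [← np_perm F y σ']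
    rw [← hsix]
    have h12 := hIA r a κ F hF X Z i j d e hI
    have h8 := hIB r a κ F hF X Z i j d e hI
    obtain ⟨k0, hk0, hnA, hnB⟩ := hIX r a κ F hκ hF X Z i j d e hI
    have h1 : 1 ≤ nq F (fun key => ¬ AI X Z key ∧ ¬ BI X Z key) (six X Z) :=
      one_le_nq F _ _ hk0 ⟨hnA, hnB⟩
    have hZX : X 1 ≠ Z 0 := by
      intro e'
      have h1 := hI.ate.2.2.1
      have h2 := hI.ate.2.1
      rw [e', h2] at h1
      exact absurd h1 (by decide)
    have hadd := nq_add3 F (AI X Z) (BI X Z) (fun key => ¬ AI X Z key ∧ ¬ BI X Z key) (six X Z)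
      (by
        intro k1 hk1 k2 hk2 e' h1 h2
        exact not_blk_crs (hF.inj k2 hk2) hZX (ai_congr e' h1).1 h2.1)
      (by
        intro k1 hk1 k2 hk2 e' h1 h2
        exact h2.1 (ai_congr e' h1))
      (by
        intro k1 hk1 k2 hk2 e' h1 h2
        exact h2.2 (bi_congr e' h1))
    omega
  · obtain ⟨σ', X, Y, i, j, c, d, e, hsix, hI⟩ := h
    rw [← np_perm F y σ']
    rw [← hsix]
    have h12 := hIIA r a κ F hF X Y i j c d e hI
    have h8 := hIIB r a κ F hF X Y i j c d e hI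
    obtain ⟨k0, hk0, hnA, hnB⟩ := hIIX r a κ F hκ hF X Y i j c d e hI
    have h1 : 1 ≤ nq F (fun key => ¬ AII X Y key ∧ ¬ BII X Y j key) (six X Y) :=
      one_le_nq F _ _ hk0 ⟨hnA, hnB⟩
    have hYX : Y 0 ≠ X 1 := by
      intro e'
      have h1 := (hI.ate 0).2
      have h2 := (hI.ate 1).1
      rw [e', h2] at h1
      exact absurd h1 (by decide)
    have hadd := nq_add3 F (AII X Y) (BII X Y j) (fun key => ¬ AII X Y key ∧ ¬ BII X Y j key)
      (six X Y)
      (by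
        intro k1 hk1 k2 hk2 e' h1 h2
        exact not_blk_crs (hF.inj k2 hk2) hYX ((aii_congr e' h1).1 0 1 (by decide)) h2.1)
      (by
        intro k1 hk1 k2 hk2 e' h1 h2
        exact h2.1 (aii_congr e' h1))
      (by
        intro k1 hk1 k2 hk2 e' h1 h2
        exact h2.2 (bii_congr e' h1))
    omega

end W926.PS
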